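import Pool.Agent.K1H73.SQB.Stm

set_option autoImplicit false

/-!
# The joint law for the sifted integers
-/

namespace Pool.Agent.K1H96.SQB

open Finset Pool.Agent.Y862.SQ Pool.Agent.K1H73.SQB

lemma V1_nonneg' (y : ℕ) : 0 ≤ V1 y := by
  unfold V1
  apply Finset.prod_nonneg
  intro p hp
  have h1 : 1 ≤ p := (mem_Icc.1 (mem_filter.1 hp).1).1
  rw [sub_nonneg]
  apply div_le_one_of_le₀ _ (Nat.cast_nonneg _)
  exact_mod_cast h1

theorem t_LAWJ (h1 : S_MOM) (h2 : S_JL) : S_LAWJ := by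
  intro k q a x0 ε hq ha hx0 hε
  obtain ⟨R, η, hη, hjl⟩ := h2 k x0 ε hx0 hε
  choose K0 y0 T0 hmom using fun κ : Fin k → ℕ => h1 k q a κ x0 (η / 2) hq ha (by positivity)
  obtain ⟨y1, hy1⟩ : ∃ y1 : ℕ, (2 / η) ^ 4 ≤ y1 := exists_nat_ge _
  obtain ⟨P, hP⟩ : ∃ P : Finset (Fin k → ℕ), P = Fintype.piFinset (fun _ => range (R + 1)) :=
    ⟨_, rfl⟩
  refine ⟨(∑ κ ∈ P, K0 κ) + 1, (∑ κ ∈ P, y0 κ) + y1 + 1, (∑ κ ∈ P, T0 κ) + 1,
    4 * (k * R + 1), ?_⟩
  intro Z Y y T hy hyY hT hTR hx S U hU hD A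
  have hy1' : 1 ≤ y := by omega
  have hT1 : 1 ≤ T := by omega
  have hyY' : y ≤ Y := by
    calc y = y ^ 1 := (pow_one y).symm
      _ ≤ y ^ ((∑ κ ∈ P, K0 κ) + 1) := Nat.pow_le_pow_right hy1' (by omega)
      _ ≤ Y := hyY
  have hY1 : (2 / η) ^ 4 ≤ (Y : ℝ) := hy1.trans (by exact_mod_cast (by omega : y1 ≤ Y))
  have hYpos : (0 : ℝ) < Y := lt_of_lt_of_le (by positivity) hY1
  have hs4 : 2 / η ≤ √(√(Y : ℝ)) := by
    apply Real.le_sqrt_of_sq_le
    apply Real.le_sqrt_of_sq_le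
    calc ((2 / η) ^ 2) ^ 2 = (2 / η) ^ 4 := by ring
      _ ≤ (Y : ℝ) := hY1
  have hT4 : (T : ℝ) ^ (k * R + 1) ≤ √(√(Y : ℝ)) := by
    apply Real.le_sqrt_of_sq_le
    apply Real.le_sqrt_of_sq_le
    calc (((T : ℝ) ^ (k * R + 1)) ^ 2) ^ 2 = (T : ℝ) ^ (4 * (k * R + 1)) := by
          rw [← pow_mul, ← pow_mul]
          congr 1
          ring
      _ ≤ Y := by exact_mod_cast hTR
  have hTY : (T : ℝ) ^ (k * R + 1) * √(Y : ℝ) ≤ η / 2 * Y := by
    have e1 : √(√(Y : ℝ)) * √(√(Y : ℝ)) = √(Y : ℝ) := Real.mul_self_sqrt (Real.sqrt_nonneg _)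
    have e2 : √(Y : ℝ) * √(Y : ℝ) = Y := Real.mul_self_sqrt hYpos.le
    have h1 : (T : ℝ) ^ (k * R + 1) * (2 / η) ≤ √(Y : ℝ) := by
      rw [← e1]
      exact mul_le_mul hT4 hs4 (by positivity) (Real.sqrt_nonneg _)
    calc (T : ℝ) ^ (k * R + 1) * √(Y : ℝ)
        = η / 2 * ((T : ℝ) ^ (k * R + 1) * (2 / η)) * √(Y : ℝ) := by
          field_simp
      _ ≤ η / 2 * √(Y : ℝ) * √(Y : ℝ) := by gcongr
      _ = η / 2 * Y := by rw [mul_assoc, e2]
  have hcard : ((Icc 1 Y).card : ℝ) = Y := by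
    rw [Nat.card_Icc, Nat.add_sub_cancel]
  have htot : (1 : ℝ) ≤ (Nat.totient q : ℝ) := by
    exact_mod_cast Nat.totient_pos.mpr (Nat.pos_of_ne_zero hq.ne_zero)
  have hmu0 : ∀ i, 0 ≤ mu q y (S i) (U i) := by
    intro i
    unfold mu
    exact div_nonneg (mul_nonneg (Nat.cast_nonneg _) (V1_nonneg' y)) (by linarith)
  have hmu1 : ∀ i, mu q y (S i) (U i) ≤ x0 := by
    intro i
    unfold mu
    have hnn : 0 ≤ ((U i - S i : ℕ) : ℝ) * V1 y := mul_nonneg (Nat.cast_nonneg _) (V1_nonneg' y)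
    refine (div_le_self hnn htot).trans (le_trans ?_ hx)
    apply mul_le_mul_of_nonneg_right _ (V1_nonneg' y)
    exact_mod_cast (Nat.sub_le _ _).trans (hU i)
  have hmain := hjl (Icc 1 Y) (fun n i => Nb q (a i) y (S i) (U i) (n + Z))
    (fun i => mu q y (S i) (U i)) hmu0 hmu1 (by
      intro κ hκ
      rw [hcard]
      have hκP : κ ∈ P := by
        rw [hP, Fintype.mem_piFinset]
        intro i
        rw [mem_range]
        have := hκ i
        omega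
      have hKk : K0 κ ≤ ∑ κ ∈ P, K0 κ := Finset.single_le_sum (fun _ _ => Nat.zero_le _) hκP
      have hyk : y0 κ ≤ ∑ κ ∈ P, y0 κ := Finset.single_le_sum (fun _ _ => Nat.zero_le _) hκP
      have hTk : T0 κ ≤ ∑ κ ∈ P, T0 κ := Finset.single_le_sum (fun _ _ => Nat.zero_le _) hκP
      have h3 := hmom κ Z Y y T (by omega)
        ((Nat.pow_le_pow_right hy1' (by omega)).trans hyY) (by omega) hx S U hU hD
      refine h3.trans ?_
      have h4 : ∑ i, κ i ≤ k * R + 1 := by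
        have h5 : ∑ i, κ i ≤ ∑ _i : Fin k, R := Finset.sum_le_sum fun i _ => hκ i
        rw [Finset.sum_const, Finset.card_univ, Fintype.card_fin, smul_eq_mul] at h5
        omega
      have h6 : (T : ℝ) ^ (∑ i, κ i) * √(Y : ℝ) ≤ η / 2 * Y := by
        refine le_trans ?_ hTY
        apply mul_le_mul_of_nonneg_right _ (Real.sqrt_nonneg _)
        exact pow_le_pow_right₀ (by exact_mod_cast hT1) h4
      linarith) A
  rw [hcard] at hmain
  have hcount : ((Ioc Z (Z + Y)).filter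
        (fun n => (fun i => Nb q (a i) y (S i) (U i) n) ∈ A)).card =
      ((Icc 1 Y).filter (fun n => (fun i => Nb q (a i) y (S i) (U i) (n + Z)) ∈ A)).card := by
    symm
    apply Finset.card_bij (fun n _ => n + Z)
    · intro n hn
      rw [mem_filter, mem_Icc] at hn
      rw [mem_filter, mem_Ioc]
      exact ⟨by omega, hn.2⟩
    · intro a _ b _ hab
      omega
    · intro n hn
      rw [mem_filter, mem_Ioc] at hn
      refine ⟨n - Z, ?_, by omega⟩
      rw [mem_filter, mem_Icc, show n - Z + Z = n by omega]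
      exact ⟨by omega, hn.2⟩
  rw [hcount]
  exact hmain

end Pool.Agent.K1H96.SQB
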