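import Pool.Agent.K1H73.SQB.Stm3

set_option autoImplicit false

/-!
# A lower bound for the density of an admissible set
-/

namespace Pool.Agent.K1H96.SQB

open Finset Pool.Agent.Y862.SQ Pool.Agent.K1H73.SQB

lemma two_roots' (Z h p : ℕ) (hp : p.Prime) :
    ((range p).filter (fun r => p ∣ (r + Z) ^ 2 + h)).card ≤ 2 := by
  by_cases hne : ((range p).filter (fun r => p ∣ (r + Z) ^ 2 + h)).Nonempty
  · obtain ⟨r0, hr0⟩ := hne
    rw [mem_filter, mem_range] at hr0
    have hsub : (range p).filter (fun r => p ∣ (r + Z) ^ 2 + h) ⊆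
        {r0, ((-((r0 : ℤ) + 2 * Z)) % (p : ℤ)).toNat} := by
      intro r hr
      rw [mem_filter, mem_range] at hr
      rw [mem_insert, mem_singleton]
      have h1 : (p : ℤ) ∣ ((r : ℤ) + Z) ^ 2 + h := by exact_mod_cast hr.2
      have h2 : (p : ℤ) ∣ ((r0 : ℤ) + Z) ^ 2 + h := by exact_mod_cast hr0.2
      have h3 : (p : ℤ) ∣ ((r : ℤ) - r0) * ((r : ℤ) + r0 + 2 * Z) := by
        have := dvd_sub h1 h2
        have e : ((r : ℤ) + Z) ^ 2 + h - (((r0 : ℤ) + Z) ^ 2 + h) =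
          ((r : ℤ) - r0) * ((r : ℤ) + r0 + 2 * Z) := by ring
        rwa [e] at this
      have hp0 : (0 : ℤ) < p := by exact_mod_cast hp.pos
      rcases (Nat.prime_iff_prime_int.mp hp).dvd_or_dvd h3 with h4 | h4
      · left
        have h6 : (r : ℤ) % p = (r0 : ℤ) % p :=
          Int.emod_eq_emod_iff_emod_sub_eq_zero.mpr (Int.emod_eq_zero_of_dvd h4)
        rw [Int.emod_eq_of_lt (Int.natCast_nonneg r) (by exact_mod_cast hr.1),
          Int.emod_eq_of_lt (Int.natCast_nonneg r0) (by exact_mod_cast hr0.1)] at h6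
        exact_mod_cast h6
      · right
        have h6 : (r : ℤ) % p = (-((r0 : ℤ) + 2 * Z)) % p := by
          apply Int.emod_eq_emod_iff_emod_sub_eq_zero.mpr
          apply Int.emod_eq_zero_of_dvd
          have e : (r : ℤ) - -((r0 : ℤ) + 2 * Z) = (r : ℤ) + r0 + 2 * Z := by ring
          rw [e]
          exact h4
        rw [Int.emod_eq_of_lt (Int.natCast_nonneg r) (by exact_mod_cast hr.1)] at h6
        rw [← h6, Int.toNat_natCast]
    exact (card_le_card hsub).trans card_le_two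
  · rw [not_nonempty_iff_eq_empty] at hne
    rw [hne]
    simp

lemma r2_le (P : Finset (ℕ × ℕ)) (p : ℕ) (hp : p.Prime) : r2 P p ≤ 2 * P.card := by
  have h1 : (range p).filter (fun r => ∃ z ∈ P, p ∣ (r + z.1) ^ 2 + z.2) ⊆
      P.biUnion (fun z => (range p).filter (fun r => p ∣ (r + z.1) ^ 2 + z.2)) := by
    intro r hr
    rw [mem_filter] at hr
    obtain ⟨hr1, z, hz, hq⟩ := hr
    rw [mem_biUnion]
    exact ⟨z, hz, mem_filter.2 ⟨hr1, hq⟩⟩
  have h2 := Finset.card_biUnion_le_card_mul P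
    (fun z => (range p).filter (fun r => p ∣ (r + z.1) ^ 2 + z.2)) 2 (by
      intro z _
      exact two_roots' z.1 z.2 p hp)
  unfold r2
  rw [mul_comm]
  exact (card_le_card h1).trans h2

lemma big (m : ℕ) (x : ℝ) (hx : 0 ≤ x) (hx1 : x ≤ 1) (hm : 4 * m * x ≤ 1) :
    (1 - x) ^ (4 * m) ≤ 1 - 2 * m * x := by
  have h1 : 1 + ((4 * m : ℕ) : ℝ) * x ≤ (1 + x) ^ (4 * m) :=
    one_add_mul_le_pow (by linarith) _
  push_cast at h1
  have h2 : (1 - x) ^ (4 * m) * (1 + 4 * m * x) ≤ 1 := by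
    calc (1 - x) ^ (4 * m) * (1 + 4 * m * x) ≤ (1 - x) ^ (4 * m) * (1 + x) ^ (4 * m) := by
          apply mul_le_mul_of_nonneg_left h1 (pow_nonneg (by linarith) _)
      _ = ((1 - x) * (1 + x)) ^ (4 * m) := by rw [mul_pow]
      _ ≤ 1 := by
          apply pow_le_one₀
          · apply mul_nonneg <;> linarith
          · nlinarith
  have hmx : 0 ≤ (m : ℝ) * x := mul_nonneg (Nat.cast_nonneg m) hx
  have h3 : 1 ≤ (1 - 2 * m * x) * (1 + 4 * m * x) := by nlinarith
  have h4 : 0 < 1 + 4 * m * x := by nlinarith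
  exact le_of_mul_le_mul_right (h2.trans h3) h4

theorem t_VPL : S_VPL := by
  intro P hadm
  obtain ⟨m, hm⟩ : ∃ m, m = P.card := ⟨_, rfl⟩
  obtain ⟨p0, hp0⟩ : ∃ p0, p0 = 4 * m := ⟨_, rfl⟩
  let cp : ℕ → ℝ := fun p => if p < p0 then 1 / (p : ℝ) else 1
  have hpr : ∀ {w p : ℕ}, p ∈ pr w → p.Prime ∧ p ≤ w := by
    intro w p h
    unfold pr at h
    rw [mem_filter, mem_Icc] at h
    exact ⟨h.2, h.1.2⟩
  have hc0 : ∀ {w p : ℕ}, p ∈ pr w → 0 < cp p ∧ cp p ≤ 1 := by
    intro w p h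
    have hp := (hpr h).1
    have h1 : (1 : ℝ) ≤ p := by exact_mod_cast hp.one_le
    simp only [cp]
    split_ifs
    · exact ⟨by positivity, by rw [div_le_one (by linarith)]; exact h1⟩
    · exact ⟨one_pos, le_rfl⟩
  refine ⟨∏ p ∈ pr p0, cp p, prod_pos fun p hp => (hc0 hp).1, fun w => ?_⟩
  -- the factors
  have hfac : ∀ p ∈ pr w, cp p * (1 - 1 / (p : ℝ)) ^ (4 * m) ≤ 1 - (r2 P p : ℝ) / p := by
    intro p hp
    have hpp := (hpr hp).1
    have h1 : (1 : ℝ) ≤ p := by exact_mod_cast hpp.one_le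
    have hpos : (0 : ℝ) < p := by linarith
    have hx0 : 0 ≤ 1 / (p : ℝ) := by positivity
    have hx1 : 1 / (p : ℝ) ≤ 1 := by rw [div_le_one hpos]; exact h1
    simp only [cp]
    split_ifs with hlt
    · have h2 : (1 - 1 / (p : ℝ)) ^ (4 * m) ≤ 1 := pow_le_one₀ (by linarith) (by linarith)
      have h3 : ((r2 P p : ℕ) : ℝ) + 1 ≤ p := by exact_mod_cast hadm p hpp
      calc 1 / (p : ℝ) * (1 - 1 / (p : ℝ)) ^ (4 * m) ≤ 1 / (p : ℝ) * 1 := by gcongr
        _ = 1 / (p : ℝ) := mul_one _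
        _ ≤ 1 - (r2 P p : ℝ) / p := by
            rw [div_le_iff₀ hpos, sub_mul, div_mul_cancel₀ _ hpos.ne']
            linarith
    · push Not at hlt
      rw [one_mul]
      have h2 : 4 * (m : ℝ) * (1 / (p : ℝ)) ≤ 1 := by
        rw [mul_one_div, div_le_one hpos]
        have : 4 * m ≤ p := by omega
        exact_mod_cast this
      refine (big m _ hx0 hx1 h2).trans ?_
      have h3 : ((r2 P p : ℕ) : ℝ) ≤ 2 * m := by
        rw [hm]; exact_mod_cast r2_le P p hpp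
      have h4 : (r2 P p : ℝ) / p ≤ 2 * m * (1 / (p : ℝ)) := by
        rw [mul_one_div]; gcongr
      linarith
  have hV : ∏ p ∈ pr w, (cp p * (1 - 1 / (p : ℝ)) ^ (4 * m)) ≤ VP P w := by
    unfold VP
    apply prod_le_prod _ hfac
    intro p hp
    have h1 : (1 : ℝ) ≤ p := by exact_mod_cast (hpr hp).1.one_le
    have hx1 : 1 / (p : ℝ) ≤ 1 := by rw [div_le_one (by linarith)]; exact h1
    exact mul_nonneg (hc0 hp).1.le (pow_nonneg (by linarith) _)
  rw [prod_mul_distrib, prod_pow] at hV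
  have hmono : ∀ {a b : ℕ}, a ≤ b → pr a ⊆ pr b := by
    intro a b h
    unfold pr
    exact filter_subset_filter _ (Icc_subset_Icc_right h)
  -- the constants
  have hcc : ∏ p ∈ pr p0, cp p ≤ ∏ p ∈ pr w, cp p := by
    have e1 : ∏ p ∈ pr (max w p0), cp p = ∏ p ∈ pr p0, cp p := by
      rw [← prod_sdiff (hmono (le_max_right w p0)), prod_eq_one, one_mul]
      intro p hp
      rw [mem_sdiff] at hp
      have h1 : ¬ p < p0 := by
        intro h
        apply hp.2
        have := (hpr hp.1).1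
        unfold pr
        rw [mem_filter, mem_Icc]
        exact ⟨⟨this.one_le, h.le⟩, this⟩
      simp only [cp]
      rw [if_neg h1]
    have e2 : ∏ p ∈ pr (max w p0), cp p ≤ ∏ p ∈ pr w, cp p := by
      rw [← prod_sdiff (hmono (le_max_left w p0))]
      have h1 : ∏ p ∈ pr (max w p0) \ pr w, cp p ≤ 1 := by
        apply prod_le_one
        · intro p hp
          exact (hc0 (mem_sdiff.mp hp).1).1.le
        · intro p hp
          exact (hc0 (mem_sdiff.mp hp).1).2
      have h2 : 0 ≤ ∏ p ∈ pr w, cp p := prod_nonneg fun p hp => (hc0 hp).1.le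
      calc _ ≤ 1 * ∏ p ∈ pr w, cp p := mul_le_mul_of_nonneg_right h1 h2
        _ = _ := one_mul _
    rw [← e1]
    exact e2
  have hV1 : 0 ≤ V1 w := by
    unfold V1
    apply prod_nonneg
    intro p hp
    have h1 : (1 : ℝ) ≤ p := by exact_mod_cast (hpr hp).1.one_le
    have hx1 : 1 / (p : ℝ) ≤ 1 := by rw [div_le_one (by linarith)]; exact h1
    linarith
  calc (∏ p ∈ pr p0, cp p) * V1 w ^ (4 * P.card) ≤ (∏ p ∈ pr w, cp p) * V1 w ^ (4 * P.card) :=
        mul_le_mul_of_nonneg_right hcc (pow_nonneg hV1 _)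
    _ = (∏ p ∈ pr w, cp p) * (∏ p ∈ pr w, (1 - 1 / (p : ℝ))) ^ (4 * m) := by rw [hm]; rfl
    _ ≤ VP P w := hV

end Pool.Agent.K1H96.SQB
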